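import Pool.Agent.W5h40.WlpO.Orb

set_option autoImplicit false
set_option maxRecDepth 100000

namespace Pool.Agent.W5h40.WlpO

lemma cnt_5_6 : cnt 6 18 5 3 24 < cnt 6 18 5 3 23 := by decide +kernel

lemma cnt_7_6 : cnt 6 18 7 3 29 < cnt 6 18 7 3 28 := by decide +kernel

lemma cnt_7_4 : cnt 4 12 7 3 18 < cnt 4 12 7 3 17 := by decide +kernel

lemma cnt_9_4 : cnt 4 12 9 3 21 < cnt 4 12 9 3 20 := by decide +kernel

lemma cnt_11_4 : cnt 4 12 11 3 24 < cnt 4 12 11 3 23 := by decide +kernel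

lemma cnt_5_2 : cnt 2 16 5 8 16 < cnt 2 16 5 8 15 := by decide +kernel

end Pool.Agent.W5h40.WlpO
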