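import Pool.Agent.W5h40.WlpO.Quart2
import Pool.Agent.W5h40.WlpO.Small
import Pool.Agent.W5h40.WlpE.Crit3
import Pool.Agent.W5h40.WlpE.Forest2
import Pool.Agent.W5h40.Wlp.Combine

set_option autoImplicit false

open MvPolynomial

namespace Pool.Agent.W5h40.WlpO

open Pool.Agent.Helper720.Pow Pool.Agent.W5h40.Wlp

variable {K : Type*} [Field K] [CharZero K] {n : ℕ}

/-- `k = 2`, `n (d - 1)` odd -/
theorem not_inj_two_odd {d i : ℕ} (hn : 5 ≤ n) (hno : Odd n) (hde : Even d)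
    (hd : 7 ≤ (n - 2) * (d - 5)) (hi : i + 1 = (2 - 1) * d + n * (d - 1) / 2) :
    ¬ InjAt K n d 2 i 1 := by
  obtain ⟨h, rfl⟩ : ∃ h, n = h + h + 1 := by
    obtain ⟨h, hh⟩ := hno
    exact ⟨h, by omega⟩
  have hd6 : 6 ≤ d := by
    by_contra hcon
    rw [show d - 5 = 0 by omega, mul_zero] at hd
    omega
  obtain ⟨g, rfl⟩ : ∃ g, d = 2 * g + 6 := by
    obtain ⟨e, he⟩ := hde
    exact ⟨e - 3, by omega⟩
  rw [show h + h + 1 - 2 = 2 * h - 1 by omega, show 2 * g + 6 - 5 = 2 * g + 1 by omega] at hd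
  obtain ⟨t, rfl⟩ : ∃ t, h = t + 2 := ⟨h - 2, by omega⟩
  rw [show 2 * (t + 2) - 1 = 2 * t + 3 by omega] at hd
  rw [show 2 * g + 6 - 1 = 2 * g + 5 by omega] at hi
  have e1 : (t + 2 + (t + 2) + 1) * (2 * g + 5) = 1 + (2 * (t * g) + 5 * t + 5 * g + 12) * 2 := by
    ring
  have e2 : (2 * t + 3) * (2 * g + 1) = 4 * (t * g) + 2 * t + 6 * g + 3 := by ring
  rw [e2] at hd
  rw [e1, Nat.add_mul_div_right _ _ (by norm_num)] at hi
  obtain ⟨F, h1, h2, h3, v₀, h4, h5⟩ := WlpE.exists_forest2 (h := t + 2) (D := 2 * g + 5)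
    (M := 2 * (t * g) + 5 * t + 3 * g + 8) (by omega) (by rw [e1]; omega) (by omega)
  have h6 := WlpE.not_inj_crit_odd (K := K) (by omega) (by omega) (by rw [e1]; omega)
    F h1 h2 h3 h4 h5
  have h7 : i = 2 * (t * g) + 5 * t + 3 * g + 8 + 2 * (2 * g + 5) - 1 := by omega
  rw [h7]
  exact h6

theorem not_inj_four_three {i : ℕ} (hn : 7 ≤ n) (hno : Odd n)
    (hi : i + 1 = (3 - 1) * 4 + n * (4 - 1) / 2) : ¬ InjAt K n 4 3 i 1 := by
  obtain ⟨h, rfl⟩ := hno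
  have h1 : i = 3 * h + 8 := by omega
  subst h1
  apply not_inj_orb (by norm_num)
  rcases (by omega : h = 3 ∨ h = 4 ∨ h = 5 ∨ 6 ≤ h) with rfl | rfl | rfl | h6
  · exact cnt_7_4
  · exact cnt_9_4
  · exact cnt_11_4
  · exact cnt_lt h6

theorem not_inj_five_six {i : ℕ} (hi : i + 1 = (3 - 1) * 6 + 5 * (6 - 1) / 2) :
    ¬ InjAt K 5 6 3 i 1 := by
  obtain rfl : i = 23 := by omega
  exact not_inj_orb (by norm_num) cnt_5_6

theorem not_inj_seven_six {i : ℕ} (hi : i + 1 = (3 - 1) * 6 + 7 * (6 - 1) / 2) :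
    ¬ InjAt K 7 6 3 i 1 := by
  obtain rfl : i = 28 := by omega
  exact not_inj_orb (by norm_num) cnt_7_6

theorem not_inj_five_two {i : ℕ} (hi : i + 1 = (8 - 1) * 2 + 5 * (2 - 1) / 2) :
    ¬ InjAt K 5 2 8 i 1 := by
  obtain rfl : i = 15 := by omega
  exact not_inj_orb (by norm_num) cnt_5_2

/-- the exceptions -/
def ExcO (n d k : ℕ) : Prop :=
  (d = 2 ∧ k ≤ 3) ∨ (d = 4 ∧ k = 2) ∨ (d = 6 ∧ k = 2 ∧ n ≤ 7) ∨
    (n = 5 ∧ ((d = 4 ∧ k = 3) ∨ (d = 2 ∧ k ≤ 7))) ∨ (n = 7 ∧ d = 2 ∧ k = 4)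

theorem not_inj_odd_mid {d k i : ℕ} (hn : 5 ≤ n) (hno : Odd n) (hde : Even d) (hd : 2 ≤ d)
    (hk : 2 ≤ k) (h : ¬ ExcO n d k) (hi : i + 1 = (k - 1) * d + n * (d - 1) / 2) :
    ¬ InjAt K n d k i 1 := by
  unfold ExcO at h
  have hd1 : 1 ≤ d := by omega
  by_cases h2 : 7 ≤ (n - 2) * (d - 5)
  · have ha : 1 ≤ (2 - 1) * d + n * (d - 1) / 2 := by omega
    have hi' := mid_sub (by omega) hk hd1 hi ha
    exact not_inj_from (by omega) hd1 hk (not_inj_two_odd hn hno hde h2 (by omega)) hi'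
  · have hcases : d ≤ 6 ∧ (d = 6 → n ≤ 7) := by
      obtain ⟨n', rfl⟩ : ∃ n', n = n' + 5 := ⟨n - 5, by omega⟩
      rw [show n' + 5 - 2 = n' + 3 by omega] at h2
      constructor
      · by_contra hcon
        apply h2
        have h3 : 3 ≤ d - 5 := by
          obtain ⟨e, he⟩ := hde
          omega
        calc 7 ≤ 3 * 3 := by norm_num
          _ ≤ (n' + 3) * (d - 5) := Nat.mul_le_mul (by omega) h3
      · rintro rfl
        rw [show 6 - 5 = 1 from rfl, mul_one] at h2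
        obtain ⟨e, he⟩ := hno
        omega
    obtain ⟨hd6, hn7⟩ := hcases
    have hd' : d = 2 ∨ d = 4 ∨ d = 6 := by
      obtain ⟨e, he⟩ := hde
      omega
    obtain ⟨q, hq⟩ := hno
    rcases hd' with rfl | rfl | rfl
    · -- `d = 2`
      have hk4 : 4 ≤ k := by omega
      rcases (by omega : 9 ≤ n ∨ n = 7 ∨ n = 5) with h3 | rfl | rfl
      · exact not_inj_mid hn hd hi (Or.inr (Or.inl ⟨hk4, Or.inr h3⟩))
      · exact not_inj_mid hn hd hi (Or.inr (Or.inr ⟨rfl, by omega⟩))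
      · have hk8 : 8 ≤ k := by omega
        exact not_inj_from (by omega) hd1 hk8 (not_inj_five_two (i := 15) (by norm_num)) (by omega)
    · -- `d = 4`
      have hk3 : 3 ≤ k := by omega
      rcases (by omega : 4 ≤ k ∨ (k = 3 ∧ 7 ≤ n)) with h3 | ⟨rfl, h3⟩
      · exact not_inj_mid hn hd hi (Or.inr (Or.inl ⟨h3, Or.inl (by norm_num)⟩))
      · exact not_inj_four_three h3 ⟨q, hq⟩ hi
    · -- `d = 6`
      have hk3 : 3 ≤ k := by omega
      rcases (by omega : 4 ≤ k ∨ k = 3) with h3 | rfl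
      · exact not_inj_mid hn hd hi (Or.inr (Or.inl ⟨h3, Or.inl (by norm_num)⟩))
      · rcases (by omega : n = 5 ∨ n = 7) with rfl | rfl
        · exact not_inj_five_six hi
        · exact not_inj_seven_six hi

theorem not_maxRankO {d k i : ℕ} (hn : 5 ≤ n) (hno : Odd n) (hde : Even d) (hd : 2 ≤ d)
    (hk : 2 ≤ k) (h : ¬ ExcO n d k) (hi : i + 1 = (k - 1) * d + n * (d - 1) / 2)
    {L : MvPolynomial (Fin n) K} (hL : L.IsHomogeneous 1) :
    ¬ MaxRank (powIdeal K n d k) L i := by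
  intro hm
  rcases maxRank_test (by omega) hL hm with h5 | h5
  · exact not_inj_odd_mid hn hno hde hd hk h hi h5
  · exact not_surj_mid (by omega) (by omega) (by omega) hi h5

end Pool.Agent.W5h40.WlpO
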