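import Pool.Agent.W5h40.Wlp.Card

set_option autoImplicit false

open MvPolynomial

namespace Pool.Agent.W5h40.WlpO

open Pool.Agent.Helper720.Pow Pool.Agent.W5h40.Wlp

variable {n : ℕ}

/-- the multiset of the exponents -/
def ex (w : Fin n →₀ ℕ) : Multiset ℕ := Finset.univ.val.map w

lemma ex_sub (w : Fin n →₀ ℕ) (c : Fin n) :
    ex (w - Finsupp.single c 1) = (w c - 1) ::ₘ (ex w).erase (w c) := by
  classical
  have h1 : (Finset.univ : Finset (Fin n)).val = c ::ₘ (Finset.univ.erase c).val := by
    rw [Finset.erase_val]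
    exact (Multiset.cons_erase (Finset.mem_univ c)).symm
  unfold ex
  rw [h1, Multiset.map_cons, Multiset.map_cons, Multiset.erase_cons_head]
  congr 1
  · rw [Finsupp.tsub_apply, Finsupp.single_eq_same]
  · refine Multiset.map_congr rfl fun j hj => ?_
    have hij : j ≠ c := Finset.ne_of_mem_erase (show j ∈ Finset.univ.erase c from hj)
    rw [Finsupp.tsub_apply, Finsupp.single_apply, if_neg (Ne.symm hij), Nat.sub_zero]

lemma ex_compat {K : Type*} [Field K] (w : Fin n →₀ ℕ) (Φ : Multiset ℕ → K) :
    ∑ c, (w c : K) * Φ (ex (w - Finsupp.single c 1)) =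
      ((ex w).map fun x : ℕ => (x : K) * Φ ((x - 1) ::ₘ (ex w).erase x)).sum := by
  have h1 : ((ex w).map fun x : ℕ => (x : K) * Φ ((x - 1) ::ₘ (ex w).erase x)) =
      Finset.univ.val.map fun c => (w c : K) * Φ ((w c - 1) ::ₘ (ex w).erase (w c)) := by
    nth_rewrite 2 [ex]
    rw [Multiset.map_map]
    rfl
  rw [h1]
  exact Finset.sum_congr rfl fun c _ => by rw [ex_sub]

lemma ex_card (w : Fin n →₀ ℕ) : Multiset.card (ex w) = n := by
  unfold ex
  rw [Multiset.card_map]
  exact (Finset.card_univ).trans (Fintype.card_fin n)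

lemma ex_sum (w : Fin n →₀ ℕ) : (ex w).sum = w.degree := by
  rw [Finsupp.degree_eq_sum]
  rfl

lemma ex_flm (d : ℕ) (w : Fin n →₀ ℕ) : flm d (ex w) = fl d w := by
  unfold flm ex fl
  rw [Multiset.map_map]
  rfl

lemma ex_surj {M : Multiset ℕ} (hM : Multiset.card M = n) : ∃ w : Fin n →₀ ℕ, ex w = M := by
  obtain ⟨l, rfl⟩ : ∃ l : List ℕ, (l : Multiset ℕ) = M := ⟨M.toList, Multiset.coe_toList M⟩
  rw [Multiset.coe_card] at hM
  subst hM
  refine ⟨Finsupp.equivFunOnFinite.symm fun c => l.get c, ?_⟩
  unfold ex
  have h1 : (Finset.univ : Finset (Fin l.length)).val = (List.finRange l.length : Multiset _) := rfl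
  rw [h1, Multiset.map_coe, Multiset.coe_eq_coe]
  have h2 : (List.finRange l.length).map
      (⇑(Finsupp.equivFunOnFinite.symm fun c => l.get c)) = l := by
    have h3 : (⇑(Finsupp.equivFunOnFinite.symm fun c => l.get c) : Fin l.length → ℕ) = l.get := rfl
    rw [h3, List.map_get_finRange]
  rw [h2]

lemma mem_Th_ex {d k i : ℕ} {M : Multiset ℕ} :
    M ∈ Th (ex (n := n)) d k i ↔ Multiset.card M = n ∧ M.sum = i ∧ flm d M < k := by
  rw [mem_Th]
  constructor
  · rintro ⟨w, hw, rfl⟩
    rw [mem_Bs] at hw
    rw [ex_card, ex_sum, ex_flm]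
    exact ⟨rfl, hw.1, hw.2⟩
  · rintro ⟨h1, h2, h3⟩
    obtain ⟨w, rfl⟩ := ex_surj h1
    refine ⟨w, ?_, rfl⟩
    rw [mem_Bs]
    rw [ex_sum] at h2
    rw [ex_flm] at h3
    exact ⟨h2, h3⟩

/-- the multisets with `n` elements less than `X`, sum `i` and sum of floors less than `k` -/
def MS (d : ℕ) : ℕ → ℕ → ℕ → ℕ → Finset (Multiset ℕ)
  | 0, n, k, i => if n = 0 ∧ i = 0 ∧ 0 < k then {0} else ∅
  | X + 1, n, k, i => (Finset.range (n + 1)).biUnion fun j =>
      if j * X ≤ i ∧ j * (X / d) < k then
        (MS d X (n - j) (k - j * (X / d)) (i - j * X)).image fun M => Multiset.replicate j X + M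
      else ∅

/-- the number of these multisets -/
def cnt (d : ℕ) : ℕ → ℕ → ℕ → ℕ → ℕ
  | 0, n, k, i => if n = 0 ∧ i = 0 ∧ 0 < k then 1 else 0
  | X + 1, n, k, i => ∑ j ∈ Finset.range (n + 1),
      if j * X ≤ i ∧ j * (X / d) < k then cnt d X (n - j) (k - j * (X / d)) (i - j * X) else 0

lemma flm_add (d : ℕ) (M N : Multiset ℕ) : flm d (M + N) = flm d M + flm d N := by
  unfold flm
  rw [Multiset.map_add, Multiset.sum_add]

lemma flm_replicate (d j X : ℕ) : flm d (Multiset.replicate j X) = j * (X / d) := by
  unfold flm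
  rw [Multiset.map_replicate, Multiset.sum_replicate, smul_eq_mul]

lemma mem_MS {d X n k i : ℕ} {M : Multiset ℕ} :
    M ∈ MS d X n k i ↔ (∀ x ∈ M, x < X) ∧ Multiset.card M = n ∧ M.sum = i ∧ flm d M < k := by
  induction X generalizing n k i M with
  | zero =>
    unfold MS
    constructor
    · intro h
      split_ifs at h with h1
      · rw [Finset.mem_singleton] at h
        subst h
        obtain ⟨rfl, rfl, hk⟩ := h1
        refine ⟨by simp, rfl, rfl, ?_⟩
        unfold flm
        simpa using hk
      · exact absurd h (Finset.notMem_empty _)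
    · rintro ⟨h1, h2, h3, h4⟩
      have hM : M = 0 := by
        rw [Multiset.eq_zero_iff_forall_notMem]
        intro x hx
        exact absurd (h1 x hx) (by omega)
      subst hM
      rw [if_pos]
      · exact Finset.mem_singleton_self _
      · exact ⟨h2.symm, h3.symm, by omega⟩
  | succ X ih =>
    unfold MS
    rw [Finset.mem_biUnion]
    constructor
    · rintro ⟨j, hj, hM⟩
      rw [Finset.mem_range] at hj
      split_ifs at hM with h
      · rw [Finset.mem_image] at hM
        obtain ⟨N, hN, rfl⟩ := hM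
        rw [ih] at hN
        obtain ⟨h1, h2, h3, h4⟩ := hN
        refine ⟨?_, ?_, ?_, ?_⟩
        · intro x hx
          rcases Multiset.mem_add.1 hx with h5 | h5
          · rw [Multiset.eq_of_mem_replicate h5]
            omega
          · have := h1 x h5
            omega
        · rw [Multiset.card_add, Multiset.card_replicate, h2]
          omega
        · rw [Multiset.sum_add, Multiset.sum_replicate, smul_eq_mul, h3]
          omega
        · rw [flm_add, flm_replicate]
          omega
      · exact absurd hM (Finset.notMem_empty _)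
    · rintro ⟨h1, h2, h3, h4⟩
      have h5 : M = Multiset.replicate (M.count X) X + M.filter (fun x => ¬ X = x) := by
        rw [← Multiset.filter_eq, Multiset.filter_add_not]
      obtain ⟨j, hj⟩ : ∃ j, j = M.count X := ⟨_, rfl⟩
      obtain ⟨N, hN⟩ : ∃ N, N = M.filter (fun x => ¬ X = x) := ⟨_, rfl⟩
      rw [← hj, ← hN] at h5
      have hNX : ∀ x ∈ N, x < X := by
        intro x hx
        rw [hN, Multiset.mem_filter] at hx
        have := h1 x hx.1
        omega
      rw [h5] at h2 h3 h4
      rw [Multiset.card_add, Multiset.card_replicate] at h2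
      rw [Multiset.sum_add, Multiset.sum_replicate, smul_eq_mul] at h3
      rw [flm_add, flm_replicate] at h4
      refine ⟨j, Finset.mem_range.2 (by omega), ?_⟩
      rw [if_pos ⟨by omega, by omega⟩, Finset.mem_image]
      refine ⟨N, ?_, h5.symm⟩
      rw [ih]
      exact ⟨hNX, by omega, by omega, by omega⟩

lemma card_MS (d X n k i : ℕ) : (MS d X n k i).card = cnt d X n k i := by
  induction X generalizing n k i with
  | zero =>
    unfold MS cnt
    split_ifs
    · exact Finset.card_singleton _
    · exact Finset.card_empty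
  | succ X ih =>
    unfold MS cnt
    rw [Finset.card_biUnion]
    · refine Finset.sum_congr rfl fun j _ => ?_
      split_ifs
      · rw [Finset.card_image_of_injective _ (add_right_injective _), ih]
      · exact Finset.card_empty
    · intro j _ j' _ hjj'
      rw [Function.onFun, Finset.disjoint_left]
      intro M hM hM'
      have key : ∀ t, M ∈ (if t * X ≤ i ∧ t * (X / d) < k then
          (MS d X (n - t) (k - t * (X / d)) (i - t * X)).image fun M => Multiset.replicate t X + M
          else ∅) → M.count X = t := by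
        intro t ht
        split_ifs at ht
        · rw [Finset.mem_image] at ht
          obtain ⟨N, hN, rfl⟩ := ht
          rw [Multiset.count_add, Multiset.count_replicate_self, Multiset.count_eq_zero.2, add_zero]
          intro hX
          exact absurd ((mem_MS.1 hN).1 X hX) (lt_irrefl _)
        · exact absurd ht (Finset.notMem_empty _)
      exact hjj' ((key j hM).symm.trans (key j' hM'))

lemma card_Th_ex {d k i : ℕ} (hd : 1 ≤ d) :
    (Th (ex (n := n)) d k i).card = cnt d (k * d) n k i := by
  rw [← card_MS]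
  congr 1
  ext M
  rw [mem_Th_ex, mem_MS]
  constructor
  · rintro ⟨h1, h2, h3⟩
    refine ⟨fun x hx => ?_, h1, h2, h3⟩
    have h4 : x / d ≤ flm d M := by
      unfold flm
      exact Multiset.single_le_sum (fun _ _ => Nat.zero_le _) _ (Multiset.mem_map_of_mem _ hx)
    exact (Nat.div_lt_iff_lt_mul (by omega)).1 (by omega)
  · rintro ⟨_, h1, h2, h3⟩
    exact ⟨h1, h2, h3⟩

/-- Non-injectivity by counting the orbits of the symmetric group. -/
theorem not_inj_orb {K : Type*} [Field K] [CharZero K] {d k i : ℕ} (hd : 1 ≤ d)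
    (h : cnt d (k * d) n k (i + 1) < cnt d (k * d) n k i) : ¬ InjAt K n d k i 1 := by
  refine not_inj_of_types ex hd (fun w _ w' _ h Φ => by rw [ex_compat, ex_compat, h]) ?_
  rw [card_Th_ex hd, card_Th_ex hd]
  exact h

end Pool.Agent.W5h40.WlpO
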