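import Pool.Agent.W5h40.WlpO.Orb

set_option autoImplicit false

open MvPolynomial

namespace Pool.Agent.W5h40.WlpO

open Pool.Agent.Helper720.Pow Pool.Agent.W5h40.Wlp

lemma cnt0 (d n k i : ℕ) : cnt d 0 n k i = if n = 0 ∧ i = 0 ∧ 0 < k then 1 else 0 := rfl

lemma cnt_succ (d X n k i : ℕ) : cnt d (X + 1) n k i = ∑ j ∈ Finset.range (n + 1),
      if j * X ≤ i ∧ j * (X / d) < k then cnt d X (n - j) (k - j * (X / d)) (i - j * X) else 0 :=
  rfl

lemma cnt1 {n k i : ℕ} (hk : 1 ≤ k) : cnt 4 1 n k i = if i = 0 then 1 else 0 := by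
  rw [cnt_succ, Finset.sum_eq_single n]
  · rw [cnt0]
    simp only [Nat.mul_zero, Nat.zero_div, Nat.zero_le, true_and, Nat.sub_self, Nat.sub_zero]
    split_ifs <;> omega
  · intro j hj hjn
    rw [Finset.mem_range] at hj
    rw [cnt0]
    split_ifs <;> omega
  · intro h
    exact absurd (Finset.self_mem_range_succ n) h

lemma cnt2 {n k i : ℕ} (hk : 1 ≤ k) : cnt 4 2 n k i = if i ≤ n then 1 else 0 := by
  rw [cnt_succ]
  have h1 : ∀ j ∈ Finset.range (n + 1), (if j * 1 ≤ i ∧ j * (1 / 4) < k then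
      cnt 4 1 (n - j) (k - j * (1 / 4)) (i - j * 1) else 0) = if j = i then 1 else 0 := by
    intro j _
    rw [cnt1 (by omega)]
    split_ifs <;> omega
  rw [Finset.sum_congr rfl h1, Finset.sum_ite_eq']
  simp only [Finset.mem_range]
  split_ifs <;> omega

/-- the number of multisets of `n` elements of `{0, 1, 2}` with sum `i` -/
def g3 (n i : ℕ) : ℕ := if i ≤ 2 * n then i / 2 + 1 - (i - n) else 0

lemma cnt3 {n k i : ℕ} (hk : 1 ≤ k) : cnt 4 3 n k i = g3 n i := by
  rw [cnt_succ]
  have h1 : ∀ j ∈ Finset.range (n + 1), (if j * 2 ≤ i ∧ j * (2 / 4) < k then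
      cnt 4 2 (n - j) (k - j * (2 / 4)) (i - j * 2) else 0) =
        if j ∈ Finset.Ico (i - n) (i / 2 + 1) then 1 else 0 := by
    intro j hj
    rw [Finset.mem_range] at hj
    rw [cnt2 (by omega)]
    simp only [Finset.mem_Ico]
    split_ifs <;> omega
  rw [Finset.sum_congr rfl h1, ← Finset.sum_filter, Finset.sum_const, smul_eq_mul, mul_one]
  unfold g3
  split_ifs with h
  · have h2 : (Finset.range (n + 1)).filter (fun j => j ∈ Finset.Ico (i - n) (i / 2 + 1)) =
        Finset.Ico (i - n) (i / 2 + 1) := by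
      ext j
      simp only [Finset.mem_filter, Finset.mem_range, Finset.mem_Ico]
      omega
    rw [h2, Nat.card_Ico]
  · rw [Finset.card_eq_zero, Finset.filter_eq_empty_iff]
    intro j hj
    rw [Finset.mem_range] at hj
    simp only [Finset.mem_Ico]
    omega

/-- the number of multisets of `n` elements of `{0, 1, 2, 3}` with sum `i` -/
def f4 (n i : ℕ) : ℕ := ∑ x ∈ Finset.range (n + 1), if 3 * x ≤ i then g3 (n - x) (i - 3 * x) else 0

lemma cnt4 {n k i : ℕ} (hk : 1 ≤ k) : cnt 4 4 n k i = f4 n i := by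
  rw [cnt_succ]
  unfold f4
  refine Finset.sum_congr rfl fun j _ => ?_
  rw [cnt3 (by omega), mul_comm j 3]
  have h1 : (3 * j ≤ i ∧ j * (3 / 4) < k) ↔ 3 * j ≤ i := by
    constructor
    · exact fun h => h.1
    · intro h
      exact ⟨h, by omega⟩
  simp only [h1]

/-- the first counting function -/
def Af (i : ℕ) : ℕ := ((i + 1) / 3 + 2 - (i + 1) % 2) / 2

/-- the second counting function -/
def Bf (n i : ℕ) : ℕ := if n ≤ i then (i - n) / 2 + 1 else 0

lemma sum_par (p : ℕ) (hp : p ≤ 1) (J : ℕ) :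
    ∑ x ∈ Finset.range J, (if x % 2 = p then 1 else 0) = (J + 1 - p) / 2 := by
  induction J with
  | zero => simp; omega
  | succ J ih =>
    rw [Finset.sum_range_succ, ih]
    split_ifs <;> omega

lemma f4_step {n i : ℕ} (h : i ≤ 2 * n + 1) (hn : 1 ≤ n) :
    f4 n (i + 1) + Bf n i = f4 n i + Af i := by
  have hB : Bf n i = ∑ x ∈ Finset.range (n + 1), if 2 * x + n ≤ i then 1 else 0 := by
    rw [← Finset.sum_filter, Finset.sum_const, smul_eq_mul, mul_one]
    unfold Bf
    split_ifs with h1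
    · have h2 : (Finset.range (n + 1)).filter (fun x => 2 * x + n ≤ i) =
          Finset.range ((i - n) / 2 + 1) := by
        ext j
        simp only [Finset.mem_filter, Finset.mem_range]
        omega
      rw [h2, Finset.card_range]
    · symm
      rw [Finset.card_eq_zero, Finset.filter_eq_empty_iff]
      intro j _
      omega
  have hA : Af i = ∑ x ∈ Finset.range (n + 1),
      if 3 * x ≤ i + 1 ∧ x % 2 = (i + 1) % 2 then 1 else 0 := by
    have h2 : Af i = ∑ x ∈ Finset.range ((i + 1) / 3 + 1), (if x % 2 = (i + 1) % 2 then 1 else 0) := by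
      rw [sum_par _ (by omega)]
      unfold Af
      omega
    rw [h2, ← Finset.sum_filter, ← Finset.sum_filter, Finset.sum_const, Finset.sum_const]
    congr 2
    ext j
    simp only [Finset.mem_filter, Finset.mem_range]
    omega
  rw [hA, hB]
  unfold f4
  rw [← Finset.sum_add_distrib, ← Finset.sum_add_distrib]
  refine Finset.sum_congr rfl fun x hx => ?_
  rw [Finset.mem_range] at hx
  unfold g3
  by_cases h1 : 3 * x ≤ i
  · rw [if_pos h1, if_pos (show 3 * x ≤ i + 1 by omega)]
    by_cases h2 : 2 * x + n ≤ i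
    · rw [if_pos h2]
      split_ifs <;> omega
    · rw [if_neg h2]
      split_ifs <;> omega
  · rw [if_neg h1]
    split_ifs <;> omega

end Pool.Agent.W5h40.WlpO
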