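import Pool.Agent.W5h40.WlpO.Quart

set_option autoImplicit false

open MvPolynomial

namespace Pool.Agent.W5h40.WlpO

open Pool.Agent.Helper720.Pow Pool.Agent.W5h40.Wlp

lemma cnt_big {X n k i : ℕ} (hX : 4 ≤ X) (hn : 2 ≤ n) (hk : k ≤ 3) (hk1 : 1 ≤ k) :
    cnt 4 (X + 1) n k i = cnt 4 X n k i +
      (if 1 * X ≤ i ∧ 1 * (X / 4) < k then cnt 4 X (n - 1) (k - 1 * (X / 4)) (i - 1 * X) else 0) +
      (if 2 * X ≤ i ∧ 2 * (X / 4) < k then cnt 4 X (n - 2) (k - 2 * (X / 4)) (i - 2 * X) else 0) := by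
  have hq : 1 ≤ X / 4 := by omega
  rw [cnt_succ]
  have h1 : Finset.range 3 ⊆ Finset.range (n + 1) := by
    intro j hj
    rw [Finset.mem_range] at hj ⊢
    omega
  rw [← Finset.sum_subset h1]
  · rw [Finset.sum_range_succ, Finset.sum_range_succ, Finset.sum_range_succ, Finset.sum_range_zero,
      zero_add]
    congr 2
    rw [if_pos ⟨by omega, by omega⟩]
    simp only [Nat.zero_mul, Nat.sub_zero]
  · intro j _ hj
    rw [Finset.mem_range] at hj
    rw [if_neg]
    rintro ⟨_, h2⟩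
    have : 3 * 1 ≤ j * (X / 4) := Nat.mul_le_mul (by omega) hq
    omega

lemma cnt_k1 {X n i : ℕ} (hX : 4 ≤ X) (hn : 2 ≤ n) : cnt 4 X n 1 i = f4 n i := by
  induction X, hX using Nat.le_induction with
  | base => exact cnt4 le_rfl
  | succ X hX ih =>
    rw [cnt_big hX hn (by norm_num) le_rfl, ih, if_neg (by omega), if_neg (by omega), add_zero,
      add_zero]

lemma cnt_b2 {X n i : ℕ} (hX : 4 ≤ X) (hX8 : X < 8) (hn : 3 ≤ n) (hi : X ≤ i) :
    cnt 4 (X + 1) n 2 i = cnt 4 X n 2 i + f4 (n - 1) (i - X) := by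
  have hq : X / 4 = 1 := by omega
  rw [cnt_big hX (by omega) (by norm_num) (by norm_num), hq, if_pos (by omega), if_neg (by omega),
    add_zero, one_mul]
  rw [show 2 - 1 * 1 = 1 from rfl, cnt_k1 hX (by omega), Nat.one_mul]

lemma cnt_b3 {X n i : ℕ} (hX : 4 ≤ X) (hX8 : X < 8) (hn : 4 ≤ n) (hi : 2 * X ≤ i) :
    cnt 4 (X + 1) n 3 i = cnt 4 X n 3 i + cnt 4 X (n - 1) 2 (i - X) + f4 (n - 2) (i - 2 * X) := by
  have hq : X / 4 = 1 := by omega
  rw [cnt_big hX (by omega) (by norm_num) (by norm_num), hq, if_pos (by omega), if_pos (by omega),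
    one_mul]
  rw [show 3 - 1 * 1 = 2 from rfl, show 3 - 2 * 1 = 1 from rfl, cnt_k1 hX (by omega), Nat.one_mul]

lemma cnt_b3' {X n i : ℕ} (hX : 8 ≤ X) (hX8 : X < 12) (hn : 4 ≤ n) (hi : X ≤ i) :
    cnt 4 (X + 1) n 3 i = cnt 4 X n 3 i + f4 (n - 1) (i - X) := by
  have hq : X / 4 = 2 := by omega
  rw [cnt_big (by omega) (by omega) (by norm_num) (by norm_num), hq, if_pos (by omega),
    if_neg (by omega), add_zero, one_mul]
  rw [show 3 - 1 * 2 = 1 from rfl, cnt_k1 (by omega) (by omega), Nat.one_mul]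

/-- the count for `k = 3` -/
lemma cnt_k3 {n i : ℕ} (hn : 4 ≤ n) (hi : 14 ≤ i) : cnt 4 12 n 3 i =
    f4 n i + (f4 (n - 1) (i - 4) + f4 (n - 1) (i - 5) + f4 (n - 1) (i - 6) + f4 (n - 1) (i - 7) +
      f4 (n - 1) (i - 8) + f4 (n - 1) (i - 9) + f4 (n - 1) (i - 10) + f4 (n - 1) (i - 11)) +
      (f4 (n - 2) (i - 8) + f4 (n - 2) (i - 9) + 2 * f4 (n - 2) (i - 10) +
        2 * f4 (n - 2) (i - 11) + 2 * f4 (n - 2) (i - 12) + f4 (n - 2) (i - 13) +
        f4 (n - 2) (i - 14)) := by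
  have e2 : n - 1 - 1 = n - 2 := by omega
  rw [cnt_b3' (X := 11) (by norm_num) (by norm_num) hn (by omega),
    cnt_b3' (X := 10) (by norm_num) (by norm_num) hn (by omega),
    cnt_b3' (X := 9) (by norm_num) (by norm_num) hn (by omega),
    cnt_b3' (X := 8) (by norm_num) (by norm_num) hn (by omega),
    cnt_b3 (X := 7) (by norm_num) (by norm_num) hn (by omega),
    cnt_b3 (X := 6) (by norm_num) (by norm_num) hn (by omega),
    cnt_b3 (X := 5) (by norm_num) (by norm_num) hn (by omega),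
    cnt_b3 (X := 4) (by norm_num) (by norm_num) hn (by omega),
    cnt_b2 (X := 6) (by norm_num) (by norm_num) (by omega) (by omega),
    cnt_b2 (X := 5) (by norm_num) (by norm_num) (by omega) (by omega),
    cnt_b2 (X := 4) (by norm_num) (by norm_num) (by omega) (by omega),
    cnt_b2 (X := 5) (by norm_num) (by norm_num) (by omega) (by omega),
    cnt_b2 (X := 4) (by norm_num) (by norm_num) (by omega) (by omega),
    cnt_b2 (X := 4) (by norm_num) (by norm_num) (by omega) (by omega)]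
  rw [cnt4 (by norm_num), cnt4 (by norm_num), cnt4 (by norm_num), cnt4 (by norm_num),
    cnt4 (by norm_num), e2]
  have h1 : i - 7 - 6 = i - 13 := by omega
  have h2 : i - 7 - 5 = i - 12 := by omega
  have h3 : i - 7 - 4 = i - 11 := by omega
  have h4 : i - 6 - 5 = i - 11 := by omega
  have h5 : i - 6 - 4 = i - 10 := by omega
  have h6 : i - 5 - 4 = i - 9 := by omega
  rw [h1, h2, h3, h4, h5, h6]
  ring

lemma f4_d {n i j : ℕ} (hj : j = i + 1) (h : i ≤ 2 * n + 1) (hn : 1 ≤ n) :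
    f4 n j + Bf n i = f4 n i + Af i := by
  subst hj
  exact f4_step h hn

lemma cnt_k3' (N j : ℕ) (hN : 2 ≤ N) : cnt 4 12 (N + 2) 3 (j + 14) =
    f4 (N + 2) (j + 14) + f4 (N + 1) (j + 10) + f4 (N + 1) (j + 9) + f4 (N + 1) (j + 8) + f4 (N + 1) (j + 7) +
      f4 (N + 1) (j + 6) + f4 (N + 1) (j + 5) + f4 (N + 1) (j + 4) + f4 (N + 1) (j + 3) + f4 (N) (j + 6) +
      f4 (N) (j + 5) + 2 * f4 (N) (j + 4) + 2 * f4 (N) (j + 3) + 2 * f4 (N) (j + 2) + f4 (N) (j + 1) +
      f4 (N) (j) := by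
  have h := cnt_k3 (n := N + 2) (i := j + 14) (by omega) (by omega)
  rw [h]
  rw [show N + 2 - 1 = N + 1 by omega, show N + 2 - 2 = N by omega,
    show j + 14 - 4 = j + 10 by omega, show j + 14 - 5 = j + 9 by omega,
    show j + 14 - 6 = j + 8 by omega, show j + 14 - 7 = j + 7 by omega,
    show j + 14 - 8 = j + 6 by omega, show j + 14 - 9 = j + 5 by omega,
    show j + 14 - 10 = j + 4 by omega, show j + 14 - 11 = j + 3 by omega,
    show j + 14 - 12 = j + 2 by omega, show j + 14 - 13 = j + 1 by omega,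
    show j + 14 - 14 = j by omega]
  ring

lemma cnt_step (N j : ℕ) (hN : 2 ≤ N) (hj : j + 14 ≤ 2 * N + 5) :
    cnt 4 12 (N + 2) 3 (j + 15) + (Bf (N + 2) (j + 14) + Bf (N + 1) (j + 10) + Bf (N + 1) (j + 9) + Bf (N + 1) (j + 8) + Bf (N + 1) (j + 7) +
      Bf (N + 1) (j + 6) + Bf (N + 1) (j + 5) + Bf (N + 1) (j + 4) + Bf (N + 1) (j + 3) + Bf (N) (j + 6) +
      Bf (N) (j + 5) + 2 * Bf (N) (j + 4) + 2 * Bf (N) (j + 3) + 2 * Bf (N) (j + 2) + Bf (N) (j + 1) +
      Bf (N) (j)) =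
    cnt 4 12 (N + 2) 3 (j + 14) + (Af (j + 14) + Af (j + 10) + Af (j + 9) + Af (j + 8) + Af (j + 7) +
      Af (j + 6) + Af (j + 5) + Af (j + 4) + Af (j + 3) + Af (j + 6) +
      Af (j + 5) + 2 * Af (j + 4) + 2 * Af (j + 3) + 2 * Af (j + 2) + Af (j + 1) +
      Af (j)) := by
  rw [show j + 15 = j + 1 + 14 by omega, cnt_k3' N (j + 1) hN, cnt_k3' N j hN]
  have a0 := f4_d (n := N + 2) (i := j + 14) (j := j + 1 + 14) (by omega)
    (by omega) (by omega)
  have b4 := f4_d (n := N + 1) (i := j + 10) (j := j + 1 + 10) (by omega)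
    (by omega) (by omega)
  have b5 := f4_d (n := N + 1) (i := j + 9) (j := j + 1 + 9) (by omega)
    (by omega) (by omega)
  have b6 := f4_d (n := N + 1) (i := j + 8) (j := j + 1 + 8) (by omega)
    (by omega) (by omega)
  have b7 := f4_d (n := N + 1) (i := j + 7) (j := j + 1 + 7) (by omega)
    (by omega) (by omega)
  have b8 := f4_d (n := N + 1) (i := j + 6) (j := j + 1 + 6) (by omega)
    (by omega) (by omega)
  have b9 := f4_d (n := N + 1) (i := j + 5) (j := j + 1 + 5) (by omega)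
    (by omega) (by omega)
  have b10 := f4_d (n := N + 1) (i := j + 4) (j := j + 1 + 4) (by omega)
    (by omega) (by omega)
  have b11 := f4_d (n := N + 1) (i := j + 3) (j := j + 1 + 3) (by omega)
    (by omega) (by omega)
  have c8 := f4_d (n := N) (i := j + 6) (j := j + 1 + 6) (by omega)
    (by omega) (by omega)
  have c9 := f4_d (n := N) (i := j + 5) (j := j + 1 + 5) (by omega)
    (by omega) (by omega)
  have c10 := f4_d (n := N) (i := j + 4) (j := j + 1 + 4) (by omega)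
    (by omega) (by omega)
  have c11 := f4_d (n := N) (i := j + 3) (j := j + 1 + 3) (by omega)
    (by omega) (by omega)
  have c12 := f4_d (n := N) (i := j + 2) (j := j + 1 + 2) (by omega)
    (by omega) (by omega)
  have c13 := f4_d (n := N) (i := j + 1) (j := j + 1 + 1) (by omega)
    (by omega) (by omega)
  have c14 := f4_d (n := N) (i := j) (j := j + 1) (by omega)
    (by omega) (by omega)
  linarith

lemma cnt_lt_0 (g : ℕ) :
    cnt 4 12 (4 * g + 11 + 2) 3 (6 * g + 12 + 15) < cnt 4 12 (4 * g + 11 + 2) 3 (6 * g + 12 + 14) := by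
  have h := cnt_step (4 * g + 11) (6 * g + 12) (by omega) (by omega)
  have Aa0 : Af (6 * g + 12 + 14) = g + 5 := by
    unfold Af
    omega
  have Ba0 : Bf (4 * g + 11 + 2) (6 * g + 12 + 14) = g + 7 := by
    unfold Bf
    rw [if_pos (by omega)]
    omega
  have Ab4 : Af (6 * g + 12 + 10) = g + 4 := by
    unfold Af
    omega
  have Bb4 : Bf (4 * g + 11 + 1) (6 * g + 12 + 10) = g + 6 := by
    unfold Bf
    rw [if_pos (by omega)]
    omega
  have Ab5 : Af (6 * g + 12 + 9) = g + 4 := by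
    unfold Af
    omega
  have Bb5 : Bf (4 * g + 11 + 1) (6 * g + 12 + 9) = g + 5 := by
    unfold Bf
    rw [if_pos (by omega)]
    omega
  have Ab6 : Af (6 * g + 12 + 8) = g + 4 := by
    unfold Af
    omega
  have Bb6 : Bf (4 * g + 11 + 1) (6 * g + 12 + 8) = g + 5 := by
    unfold Bf
    rw [if_pos (by omega)]
    omega
  have Ab7 : Af (6 * g + 12 + 7) = g + 4 := by
    unfold Af
    omega
  have Bb7 : Bf (4 * g + 11 + 1) (6 * g + 12 + 7) = g + 4 := by
    unfold Bf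
    rw [if_pos (by omega)]
    omega
  have Ab8 : Af (6 * g + 12 + 6) = g + 3 := by
    unfold Af
    omega
  have Bb8 : Bf (4 * g + 11 + 1) (6 * g + 12 + 6) = g + 4 := by
    unfold Bf
    rw [if_pos (by omega)]
    omega
  have Ab9 : Af (6 * g + 12 + 5) = g + 4 := by
    unfold Af
    omega
  have Bb9 : Bf (4 * g + 11 + 1) (6 * g + 12 + 5) = g + 3 := by
    unfold Bf
    rw [if_pos (by omega)]
    omega
  have Ab10 : Af (6 * g + 12 + 4) = g + 3 := by
    unfold Af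
    omega
  have Bb10 : Bf (4 * g + 11 + 1) (6 * g + 12 + 4) = g + 3 := by
    unfold Bf
    rw [if_pos (by omega)]
    omega
  have Ab11 : Af (6 * g + 12 + 3) = g + 3 := by
    unfold Af
    omega
  have Bb11 : Bf (4 * g + 11 + 1) (6 * g + 12 + 3) = g + 2 := by
    unfold Bf
    rw [if_pos (by omega)]
    omega
  have Ac8 : Af (6 * g + 12 + 6) = g + 3 := by
    unfold Af
    omega
  have Bc8 : Bf (4 * g + 11) (6 * g + 12 + 6) = g + 4 := by
    unfold Bf
    rw [if_pos (by omega)]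
    omega
  have Ac9 : Af (6 * g + 12 + 5) = g + 4 := by
    unfold Af
    omega
  have Bc9 : Bf (4 * g + 11) (6 * g + 12 + 5) = g + 4 := by
    unfold Bf
    rw [if_pos (by omega)]
    omega
  have Ac10 : Af (6 * g + 12 + 4) = g + 3 := by
    unfold Af
    omega
  have Bc10 : Bf (4 * g + 11) (6 * g + 12 + 4) = g + 3 := by
    unfold Bf
    rw [if_pos (by omega)]
    omega
  have Ac11 : Af (6 * g + 12 + 3) = g + 3 := by
    unfold Af
    omega
  have Bc11 : Bf (4 * g + 11) (6 * g + 12 + 3) = g + 3 := by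
    unfold Bf
    rw [if_pos (by omega)]
    omega
  have Ac12 : Af (6 * g + 12 + 2) = g + 3 := by
    unfold Af
    omega
  have Bc12 : Bf (4 * g + 11) (6 * g + 12 + 2) = g + 2 := by
    unfold Bf
    rw [if_pos (by omega)]
    omega
  have Ac13 : Af (6 * g + 12 + 1) = g + 3 := by
    unfold Af
    omega
  have Bc13 : Bf (4 * g + 11) (6 * g + 12 + 1) = g + 2 := by
    unfold Bf
    rw [if_pos (by omega)]
    omega
  have Ac14 : Af (6 * g + 12) = g + 2 := by
    unfold Af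
    omega
  have Bc14 : Bf (4 * g + 11) (6 * g + 12) = g + 1 := by
    unfold Bf
    rw [if_pos (by omega)]
    omega
  rw [Aa0, Ab4, Ab5, Ab6, Ab7, Ab8, Ab9, Ab10, Ab11, Ac12, Ac13, Ac14,
    Ba0, Bb4, Bb5, Bb6, Bb7, Bb8, Bb9, Bb10, Bb11, Bc8, Bc9, Bc10, Bc11, Bc12, Bc13, Bc14] at h
  linarith

lemma cnt_lt_1 (g : ℕ) :
    cnt 4 12 (4 * g + 13 + 2) 3 (6 * g + 15 + 15) < cnt 4 12 (4 * g + 13 + 2) 3 (6 * g + 15 + 14) := by
  have h := cnt_step (4 * g + 13) (6 * g + 15) (by omega) (by omega)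
  have Aa0 : Af (6 * g + 15 + 14) = g + 6 := by
    unfold Af
    omega
  have Ba0 : Bf (4 * g + 13 + 2) (6 * g + 15 + 14) = g + 8 := by
    unfold Bf
    rw [if_pos (by omega)]
    omega
  have Ab4 : Af (6 * g + 15 + 10) = g + 5 := by
    unfold Af
    omega
  have Bb4 : Bf (4 * g + 13 + 1) (6 * g + 15 + 10) = g + 6 := by
    unfold Bf
    rw [if_pos (by omega)]
    omega
  have Ab5 : Af (6 * g + 15 + 9) = g + 4 := by
    unfold Af
    omega
  have Bb5 : Bf (4 * g + 13 + 1) (6 * g + 15 + 9) = g + 6 := by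
    unfold Bf
    rw [if_pos (by omega)]
    omega
  have Ab6 : Af (6 * g + 15 + 8) = g + 5 := by
    unfold Af
    omega
  have Bb6 : Bf (4 * g + 13 + 1) (6 * g + 15 + 8) = g + 5 := by
    unfold Bf
    rw [if_pos (by omega)]
    omega
  have Ab7 : Af (6 * g + 15 + 7) = g + 4 := by
    unfold Af
    omega
  have Bb7 : Bf (4 * g + 13 + 1) (6 * g + 15 + 7) = g + 5 := by
    unfold Bf
    rw [if_pos (by omega)]
    omega
  have Ab8 : Af (6 * g + 15 + 6) = g + 4 := by
    unfold Af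
    omega
  have Bb8 : Bf (4 * g + 13 + 1) (6 * g + 15 + 6) = g + 4 := by
    unfold Bf
    rw [if_pos (by omega)]
    omega
  have Ab9 : Af (6 * g + 15 + 5) = g + 4 := by
    unfold Af
    omega
  have Bb9 : Bf (4 * g + 13 + 1) (6 * g + 15 + 5) = g + 4 := by
    unfold Bf
    rw [if_pos (by omega)]
    omega
  have Ab10 : Af (6 * g + 15 + 4) = g + 4 := by
    unfold Af
    omega
  have Bb10 : Bf (4 * g + 13 + 1) (6 * g + 15 + 4) = g + 3 := by
    unfold Bf
    rw [if_pos (by omega)]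
    omega
  have Ab11 : Af (6 * g + 15 + 3) = g + 3 := by
    unfold Af
    omega
  have Bb11 : Bf (4 * g + 13 + 1) (6 * g + 15 + 3) = g + 3 := by
    unfold Bf
    rw [if_pos (by omega)]
    omega
  have Ac8 : Af (6 * g + 15 + 6) = g + 4 := by
    unfold Af
    omega
  have Bc8 : Bf (4 * g + 13) (6 * g + 15 + 6) = g + 5 := by
    unfold Bf
    rw [if_pos (by omega)]
    omega
  have Ac9 : Af (6 * g + 15 + 5) = g + 4 := by
    unfold Af
    omega
  have Bc9 : Bf (4 * g + 13) (6 * g + 15 + 5) = g + 4 := by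
    unfold Bf
    rw [if_pos (by omega)]
    omega
  have Ac10 : Af (6 * g + 15 + 4) = g + 4 := by
    unfold Af
    omega
  have Bc10 : Bf (4 * g + 13) (6 * g + 15 + 4) = g + 4 := by
    unfold Bf
    rw [if_pos (by omega)]
    omega
  have Ac11 : Af (6 * g + 15 + 3) = g + 3 := by
    unfold Af
    omega
  have Bc11 : Bf (4 * g + 13) (6 * g + 15 + 3) = g + 3 := by
    unfold Bf
    rw [if_pos (by omega)]
    omega
  have Ac12 : Af (6 * g + 15 + 2) = g + 4 := by
    unfold Af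
    omega
  have Bc12 : Bf (4 * g + 13) (6 * g + 15 + 2) = g + 3 := by
    unfold Bf
    rw [if_pos (by omega)]
    omega
  have Ac13 : Af (6 * g + 15 + 1) = g + 3 := by
    unfold Af
    omega
  have Bc13 : Bf (4 * g + 13) (6 * g + 15 + 1) = g + 2 := by
    unfold Bf
    rw [if_pos (by omega)]
    omega
  have Ac14 : Af (6 * g + 15) = g + 3 := by
    unfold Af
    omega
  have Bc14 : Bf (4 * g + 13) (6 * g + 15) = g + 2 := by
    unfold Bf
    rw [if_pos (by omega)]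
    omega
  rw [Aa0, Ab4, Ab5, Ab6, Ab7, Ab8, Ab9, Ab10, Ab11, Ac12, Ac13, Ac14,
    Ba0, Bb4, Bb5, Bb6, Bb7, Bb8, Bb9, Bb10, Bb11, Bc8, Bc9, Bc10, Bc11, Bc12, Bc13, Bc14] at h
  linarith

/-- `d = 4`, `k = 3`, `n = 2 h + 1` -/
lemma cnt_lt {h : ℕ} (hh : 6 ≤ h) :
    cnt 4 12 (2 * h + 1) 3 (3 * h + 9) < cnt 4 12 (2 * h + 1) 3 (3 * h + 8) := by
  obtain ⟨g, rfl | rfl⟩ : ∃ g, h = 2 * g + 6 ∨ h = 2 * g + 7 := ⟨(h - 6) / 2, by omega⟩
  · have h1 := cnt_lt_0 g
    rw [show 2 * (2 * g + 6) + 1 = 4 * g + 11 + 2 by omega,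
      show 3 * (2 * g + 6) + 9 = 6 * g + 12 + 15 by omega,
      show 3 * (2 * g + 6) + 8 = 6 * g + 12 + 14 by omega]
    exact h1
  · have h1 := cnt_lt_1 g
    rw [show 2 * (2 * g + 7) + 1 = 4 * g + 13 + 2 by omega,
      show 3 * (2 * g + 7) + 9 = 6 * g + 15 + 15 by omega,
      show 3 * (2 * g + 7) + 8 = 6 * g + 15 + 14 by omega]
    exact h1

end Pool.Agent.W5h40.WlpO
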